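import Mathlib

set_option autoImplicit false

open Finset Filter

namespace Pool.Agent.H28

/-- A set of naturals below `T`, pairwise congruent mod `m`, has at most `T / m + 1` elements. -/
theorem card_le_of_modEq (T m : ℕ) (S : Finset ℕ) (hS : ∀ t ∈ S, t < T)
    (hmod : ∀ t ∈ S, ∀ u ∈ S, t ≡ u [MOD m]) : S.card ≤ T / m + 1 := by
  have h : S.card ≤ (Finset.range (T / m + 1)).card := by
    apply Finset.card_le_card_of_injOn (fun t => t / m)
    · intro t ht
      simp only [Finset.coe_range, Set.mem_Iio]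
      exact Nat.lt_succ_of_le (Nat.div_le_div_right (le_of_lt (hS t ht)))
    · intro t ht u hu htu
      have h2 : t % m = u % m := hmod t ht u hu
      have h3 : t / m = u / m := htu
      rw [← Nat.div_add_mod t m, ← Nat.div_add_mod u m, h2, h3]
  simpa using h

theorem dvd_mul_sub_of_dvd {m b a t u : ℕ} (ht : m ∣ b * t + a) (hu : m ∣ b * u + a) :
    (m : ℤ) ∣ (b : ℤ) * ((u : ℤ) - t) := by
  have h2 : ((m : ℕ) : ℤ) ∣ ((b * u + a : ℕ) : ℤ) := Int.natCast_dvd_natCast.2 hu
  have h3 : ((m : ℕ) : ℤ) ∣ ((b * t + a : ℕ) : ℤ) := Int.natCast_dvd_natCast.2 ht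
  have h4 := dvd_sub h2 h3
  push_cast at h4
  have e : (b : ℤ) * u + a - (b * t + a) = b * (u - t) := by ring
  rwa [e] at h4

theorem modEq_of_sq_dvd {q b a t u : ℕ} (hq : q.Prime) (hb : ¬ q ^ 2 ∣ b)
    (ht : q ^ 2 ∣ b * t + a) (hu : q ^ 2 ∣ b * u + a) : t ≡ u [MOD q] := by
  by_contra hne
  have hd : ¬ (q : ℤ) ∣ (u : ℤ) - t := fun h => hne ((Nat.modEq_iff_dvd).2 h)
  have h1 := dvd_mul_sub_of_dvd ht hu
  have hp : Prime (q : ℤ) := Nat.prime_iff_prime_int.1 hq
  have hc : IsCoprime (((q ^ 2 : ℕ)) : ℤ) ((u : ℤ) - t) := by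
    push_cast
    exact IsCoprime.pow_left ((Prime.coprime_iff_not_dvd hp).2 hd)
  have h5 := hc.dvd_of_dvd_mul_right h1
  exact hb (Int.natCast_dvd_natCast.1 h5)

theorem modEq_sq_of_sq_dvd {q b a t u : ℕ} (hq : q.Prime) (hb : ¬ q ∣ b)
    (ht : q ^ 2 ∣ b * t + a) (hu : q ^ 2 ∣ b * u + a) : t ≡ u [MOD q ^ 2] := by
  have h1 := dvd_mul_sub_of_dvd ht hu
  have hp : Prime (q : ℤ) := Nat.prime_iff_prime_int.1 hq
  have hb' : ¬ (q : ℤ) ∣ (b : ℤ) := fun h => hb (Int.natCast_dvd_natCast.1 h)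
  have hc : IsCoprime (((q ^ 2 : ℕ)) : ℤ) (b : ℤ) := by
    push_cast
    exact IsCoprime.pow_left ((Prime.coprime_iff_not_dvd hp).2 hb')
  have h5 := hc.dvd_of_dvd_mul_left h1
  exact (Nat.modEq_iff_dvd).2 h5

theorem local_count (q b a : ℕ) (hq : q.Prime) (hb : ¬ q ^ 2 ∣ b) :
    ((Finset.range (q ^ 2)).filter (fun t => q ^ 2 ∣ b * t + a)).card ≤ q + 1 := by
  have h := card_le_of_modEq (q ^ 2) q
    ((Finset.range (q ^ 2)).filter (fun t => q ^ 2 ∣ b * t + a))
    (fun t ht => by simpa using (Finset.mem_filter.1 ht).1)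
    (fun t ht u hu => modEq_of_sq_dvd hq hb (Finset.mem_filter.1 ht).2 (Finset.mem_filter.1 hu).2)
  have h2 : q ^ 2 / q = q := by rw [pow_two, Nat.mul_div_cancel _ hq.pos]
  rwa [h2] at h

theorem local_exists {ι : Type*} [Fintype ι] (b a : ι → ℕ) (q : ℕ) (hq : q.Prime)
    (hcard : Fintype.card ι < q) (hb : ∀ j, ¬ q ^ 2 ∣ b j) :
    ∃ t, ∀ j, ¬ q ^ 2 ∣ b j * t + a j := by
  classical
  by_contra hcon
  push Not at hcon
  have hsub : Finset.range (q ^ 2) ⊆ Finset.univ.biUnion
      (fun j => (Finset.range (q ^ 2)).filter (fun t => q ^ 2 ∣ b j * t + a j)) := by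
    intro t ht
    obtain ⟨j, hj⟩ := hcon t
    simp only [mem_biUnion, mem_univ, true_and, mem_filter]
    exact ⟨j, ht, hj⟩
  have h1 := (Finset.card_le_card hsub).trans Finset.card_biUnion_le
  have h2 := Finset.sum_le_sum (s := (Finset.univ : Finset ι))
    (fun j _ => local_count q (b j) (a j) hq (hb j))
  have h3 := h1.trans h2
  simp only [card_range, sum_const, card_univ, smul_eq_mul] at h3
  nlinarith

/-- The sieve for simultaneous squarefree values of linear forms, with a lower bound for the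
density depending only on the leading coefficients. -/
theorem sieve {ι : Type*} [Fintype ι] (b : ι → ℕ) (hb : ∀ j, 0 < b j) (y : ℕ)
    (hy : Fintype.card ι ≤ y)
    (hb2 : ∀ q : ℕ, q.Prime → y < q → ∀ j, ¬ q ^ 2 ∣ b j) :
    ∃ c : ℝ, 0 < c ∧ ∀ a : ι → ℕ, (∀ j, 0 < a j) →
      (∀ q : ℕ, q.Prime → q ≤ y → ∀ j, q ^ 2 ∣ b j ∧ ¬ q ^ 2 ∣ a j) →
      ∀ᶠ T : ℕ in atTop,
        c * T ≤ (((Finset.range T).filter (fun t => ∀ j, Squarefree (b j * t + a j))).card : ℝ) := by
  classical
  set k := Fintype.card ι with hk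
  set Y : ℕ := y + (∑ j, b j) + 4 * k + 1 with hY
  set P : Finset ℕ := (Finset.Ioc y Y).filter Nat.Prime with hP
  set W : ℕ := ∏ q ∈ P, q ^ 2 with hW
  have hPprime : ∀ q ∈ P, q.Prime := fun q hq => (Finset.mem_filter.1 hq).2
  have hWpos : 0 < W := Finset.prod_pos (fun q hq => pow_pos (hPprime q hq).pos 2)
  refine ⟨1 / (4 * W), by positivity, ?_⟩
  intro a ha hloc
  -- choose the residue class
  have hex : ∀ q : ℕ, ∃ t, (q.Prime → y < q → ∀ j, ¬ q ^ 2 ∣ b j * t + a j) := by
    intro q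
    by_cases hq : q.Prime ∧ y < q
    · obtain ⟨t, ht⟩ := local_exists b a q hq.1 (lt_of_le_of_lt hy hq.2) (hb2 q hq.1 hq.2)
      exact ⟨t, fun _ _ => ht⟩
    · exact ⟨0, fun h1 h2 => absurd ⟨h1, h2⟩ hq⟩
  choose tq htq using hex
  have hcop : ((P : Finset ℕ) : Set ℕ).Pairwise (Function.onFun Nat.Coprime (fun q => q ^ 2)) := by
    intro p hp q hq hpq
    simp only [Function.onFun]
    exact Nat.Coprime.pow 2 2 ((Nat.coprime_primes (hPprime p hp) (hPprime q hq)).2 hpq)
  obtain ⟨t0, ht0⟩ := Nat.chineseRemainderOfFinset tq (fun q => q ^ 2) P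
    (fun q hq => (pow_pos (hPprime q hq).pos 2).ne') hcop
  have hsmall : ∀ τ : ℕ, ∀ q : ℕ, q.Prime → q ≤ Y → ∀ j, ¬ q ^ 2 ∣ b j * (t0 + W * τ) + a j := by
    intro τ q hq hqY j hdvd
    by_cases hqy : q ≤ y
    · obtain ⟨h1, h2⟩ := hloc q hq hqy j
      exact h2 ((Nat.dvd_add_right (h1.mul_right _)).1 hdvd)
    · push Not at hqy
      have hqP : q ∈ P := by
        rw [hP, Finset.mem_filter, Finset.mem_Ioc]; exact ⟨⟨hqy, hqY⟩, hq⟩
      have h1 : t0 ≡ tq q [MOD q ^ 2] := ht0 q hqP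
      have h2 : q ^ 2 ∣ W := Finset.dvd_prod_of_mem (fun q => q ^ 2) hqP
      have h3 : t0 + W * τ ≡ tq q [MOD q ^ 2] := by
        have h4 : W * τ ≡ 0 [MOD q ^ 2] := (Nat.modEq_zero_iff_dvd).2 (h2.mul_right τ)
        simpa using Nat.ModEq.add h1 h4
      have h5 : b j * (t0 + W * τ) + a j ≡ b j * tq q + a j [MOD q ^ 2] :=
        Nat.ModEq.add_right _ (Nat.ModEq.mul_left _ h3)
      exact htq q hq hqy j ((h5.dvd_iff dvd_rfl).1 hdvd)
  -- count over τ
  set A : ι → ℕ := fun j => b j * t0 + a j with hA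
  set B : ι → ℕ := fun j => b j * W with hB
  have hform : ∀ j τ, b j * (t0 + W * τ) + a j = B j * τ + A j := by
    intro j τ; simp only [hA, hB]; ring
  set C : ℕ := ∑ j, (B j + A j) with hC
  have hBq : ∀ q : ℕ, q.Prime → Y < q → ∀ j, ¬ q ∣ B j := by
    intro q hq hqY j hdvd
    rcases (Nat.Prime.dvd_mul hq).1 hdvd with h | h
    · have h1 := Nat.le_of_dvd (hb j) h
      have h2 : b j ≤ ∑ j, b j := Finset.single_le_sum (fun _ _ => Nat.zero_le _) (Finset.mem_univ j)
      omega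
    · rw [hW] at h
      obtain ⟨p, hp, hpd⟩ := (Prime.dvd_finsetProd_iff (Nat.prime_iff.1 hq) _).1 h
      have h1 : q ∣ p := hq.dvd_of_dvd_pow hpd
      have h2 : q = p := (Nat.prime_dvd_prime_iff_eq hq (hPprime p hp)).1 h1
      have h3 : p ≤ Y := (Finset.mem_Ioc.1 (Finset.mem_filter.1 hp).1).2
      omega
  have hcount : ∀ T' : ℕ, 32 * k ^ 2 * C + 1 ≤ T' →
      (T' : ℝ) / 2 ≤ (((Finset.range T').filter
        (fun τ => ∀ j, Squarefree (B j * τ + A j))).card : ℝ) := by
    intro T' hT'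
    set Z : ℕ := Nat.sqrt (C * (T' + 1)) with hZ
    have hsub : (Finset.range T').filter (fun τ => ¬ ∀ j, Squarefree (B j * τ + A j)) ⊆
        Finset.univ.biUnion (fun j : ι => (Finset.Ioc Y Z).biUnion (fun q =>
          (Finset.range T').filter (fun τ => q.Prime ∧ q ^ 2 ∣ B j * τ + A j))) := by
      intro τ hτ
      rw [Finset.mem_filter] at hτ
      obtain ⟨hτ1, hτ2⟩ := hτ
      push Not at hτ2
      obtain ⟨j, hj⟩ := hτ2
      rw [Nat.squarefree_iff_prime_squarefree] at hj
      push Not at hj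
      obtain ⟨q, hq, hqd⟩ := hj
      have hqd2 : q ^ 2 ∣ B j * τ + A j := by rwa [pow_two]
      have hYq : Y < q := by
        by_contra hcon
        push Not at hcon
        apply hsmall τ q hq hcon j
        rw [hform]; exact hqd2
      have hpos : 0 < B j * τ + A j := by
        have : 0 < A j := by simp only [hA]; have := ha j; omega
        omega
      have hle : B j * τ + A j ≤ C * (T' + 1) := by
        have h1 : B j + A j ≤ C :=
          Finset.single_le_sum (f := fun j => B j + A j) (fun _ _ => Nat.zero_le _)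
            (Finset.mem_univ j)
        have h2 : τ < T' := Finset.mem_range.1 hτ1
        calc B j * τ + A j ≤ (B j + A j) * (T' + 1) := by nlinarith
          _ ≤ C * (T' + 1) := Nat.mul_le_mul_right _ h1
      have hqZ : q ≤ Z := by
        rw [hZ, Nat.le_sqrt']
        exact (Nat.le_of_dvd hpos hqd2).trans hle
      simp only [mem_biUnion, mem_univ, true_and, mem_filter, mem_Ioc]
      exact ⟨j, q, ⟨hYq, hqZ⟩, hτ1, hq, hqd2⟩
    have hcard1 : ((Finset.range T').filter
        (fun τ => ¬ ∀ j, Squarefree (B j * τ + A j))).card ≤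
        ∑ j : ι, ∑ q ∈ Finset.Ioc Y Z, (T' / q ^ 2 + 1) := by
      refine (Finset.card_le_card hsub).trans (Finset.card_biUnion_le.trans ?_)
      apply Finset.sum_le_sum
      intro j _
      refine Finset.card_biUnion_le.trans ?_
      apply Finset.sum_le_sum
      intro q hq
      by_cases hqp : q.Prime
      · apply card_le_of_modEq
        · intro t ht; simpa using (Finset.mem_filter.1 ht).1
        · intro t ht u hu
          exact modEq_sq_of_sq_dvd hqp (hBq q hqp (Finset.mem_Ioc.1 hq).1 j)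
            (Finset.mem_filter.1 ht).2.2 (Finset.mem_filter.1 hu).2.2
      · have : (Finset.range T').filter (fun τ => q.Prime ∧ q ^ 2 ∣ B j * τ + A j) = ∅ := by
          apply Finset.filter_false_of_mem
          intro τ _ h; exact hqp h.1
        rw [this]; simp
    have hsum : (∑ q ∈ Finset.Ioc Y Z, ((T' / q ^ 2 + 1 : ℕ) : ℝ)) ≤ T' / Y + Z := by
      by_cases hYZ : Y ≤ Z
      · have h1 : ∀ q ∈ Finset.Ioc Y Z, ((T' / q ^ 2 + 1 : ℕ) : ℝ) ≤ T' * ((q : ℝ) ^ 2)⁻¹ + 1 := by
          intro q _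
          push_cast
          have := @Nat.cast_div_le ℝ _ _ _ T' (q ^ 2)
          push_cast at this
          rw [← div_eq_mul_inv]
          linarith
        refine (Finset.sum_le_sum h1).trans ?_
        rw [Finset.sum_add_distrib, ← Finset.mul_sum]
        have h2 : ∑ i ∈ Finset.Ioc Y Z, ((i : ℝ) ^ 2)⁻¹ ≤ (Y : ℝ)⁻¹ - (Z : ℝ)⁻¹ :=
          sum_Ioc_inv_sq_le_sub (by omega) hYZ
        have h3 : (0 : ℝ) ≤ (Z : ℝ)⁻¹ := by positivity
        have h4 : (∑ i ∈ Finset.Ioc Y Z, (1 : ℝ)) ≤ Z := by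
          simp only [sum_const, Nat.card_Ioc, nsmul_eq_mul, mul_one]
          exact_mod_cast Nat.sub_le Z Y
        have h5 : (T' : ℝ) * ∑ i ∈ Finset.Ioc Y Z, ((i : ℝ) ^ 2)⁻¹ ≤ T' * (Y : ℝ)⁻¹ := by
          apply mul_le_mul_of_nonneg_left _ (by positivity)
          linarith
        rw [div_eq_mul_inv]
        linarith
      · rw [Finset.Ioc_eq_empty (by omega)]
        simp only [sum_empty]
        positivity
    have hcard2 : (((Finset.range T').filter
        (fun τ => ¬ ∀ j, Squarefree (B j * τ + A j))).card : ℝ) ≤ k * (T' / Y + Z) := by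
      have h1 : (((Finset.range T').filter
        (fun τ => ¬ ∀ j, Squarefree (B j * τ + A j))).card : ℝ) ≤
        ((∑ j : ι, ∑ q ∈ Finset.Ioc Y Z, (T' / q ^ 2 + 1) : ℕ) : ℝ) := by exact_mod_cast hcard1
      refine h1.trans ?_
      rw [Finset.sum_const, Finset.card_univ, smul_eq_mul, Nat.cast_mul, ← hk]
      apply mul_le_mul_of_nonneg_left _ (by positivity)
      push_cast
      push_cast at hsum
      exact hsum
    have hYr : (4 * k : ℝ) ≤ Y := by
      have : 4 * k ≤ Y := by omega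
      exact_mod_cast this
    have hYpos : (0 : ℝ) < Y := by
      have : 0 < Y := by omega
      exact_mod_cast this
    have hk1 : (k : ℝ) * (T' / Y) ≤ T' / 4 := by
      rw [← mul_div_assoc, div_le_div_iff₀ hYpos (by norm_num)]
      have : (0 : ℝ) ≤ T' := by positivity
      nlinarith
    have hk2 : 4 * k * Z ≤ T' := by
      have hZ2 : Z ^ 2 ≤ C * (T' + 1) := by rw [hZ]; exact Nat.sqrt_le' _
      have h1 : (4 * k * Z) ^ 2 ≤ T' ^ 2 := by
        calc (4 * k * Z) ^ 2 = 16 * k ^ 2 * Z ^ 2 := by ring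
          _ ≤ 16 * k ^ 2 * (C * (T' + 1)) := Nat.mul_le_mul_left _ hZ2
          _ ≤ 16 * k ^ 2 * (C * (2 * T')) := by
              apply Nat.mul_le_mul_left; apply Nat.mul_le_mul_left; omega
          _ = (32 * k ^ 2 * C) * T' := by ring
          _ ≤ T' * T' := Nat.mul_le_mul_right _ (by omega)
          _ = T' ^ 2 := by ring
      exact (Nat.pow_le_pow_iff_left (by norm_num)).1 h1
    have hk2' : (k : ℝ) * Z ≤ T' / 4 := by
      have : (4 * k * Z : ℝ) ≤ T' := by exact_mod_cast hk2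
      linarith
    have hsplit := Finset.card_filter_add_card_filter_not (s := Finset.range T')
      (fun τ => ∀ j, Squarefree (B j * τ + A j))
    rw [Finset.card_range] at hsplit
    have hsplit' : (((Finset.range T').filter
        (fun τ => ∀ j, Squarefree (B j * τ + A j))).card : ℝ) +
        (((Finset.range T').filter
        (fun τ => ¬ ∀ j, Squarefree (B j * τ + A j))).card : ℝ) = T' := by exact_mod_cast hsplit
    have : (k : ℝ) * (T' / Y + Z) = k * (T' / Y) + k * Z := by ring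
    linarith
  -- conclude
  rw [Filter.eventually_atTop]
  refine ⟨2 * t0 + 2 * W + W * (32 * k ^ 2 * C + 2) + t0, ?_⟩
  intro T hT
  set T' : ℕ := (T - t0) / W with hT'
  have hT'W : W * T' ≤ T - t0 := Nat.mul_div_le _ _
  have hT'W2 : T - t0 < W * T' + W := by
    have := Nat.lt_mul_div_succ (T - t0) hWpos
    rw [hT']; linarith [this]
  have hbig : 32 * k ^ 2 * C + 1 ≤ T' := by
    rw [hT', Nat.le_div_iff_mul_le hWpos]
    have : (32 * k ^ 2 * C + 1) * W ≤ W * (32 * k ^ 2 * C + 2) := by nlinarith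
    omega
  have h1 := hcount T' hbig
  have h2 : ((Finset.range T').filter (fun τ => ∀ j, Squarefree (B j * τ + A j))).card ≤
      ((Finset.range T).filter (fun t => ∀ j, Squarefree (b j * t + a j))).card := by
    apply Finset.card_le_card_of_injOn (fun τ => t0 + W * τ)
    · intro τ hτ
      simp only [coe_filter, mem_range, Set.mem_ofPred_eq] at hτ ⊢
      refine ⟨?_, ?_⟩
      · have : W * τ < W * T' := Nat.mul_lt_mul_of_pos_left hτ.1 hWpos
        omega
      · intro j; rw [hform]; exact hτ.2 j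
    · intro τ _ τ' _ h
      simp only at h
      have : W * τ = W * τ' := by omega
      exact Nat.eq_of_mul_eq_mul_left hWpos this
  have h3 : (T : ℝ) ≤ 2 * (W * T') := by
    have : T ≤ 2 * (W * T') := by omega
    exact_mod_cast this
  have h2' : (((Finset.range T').filter
      (fun τ => ∀ j, Squarefree (B j * τ + A j))).card : ℝ) ≤
      (((Finset.range T).filter (fun t => ∀ j, Squarefree (b j * t + a j))).card : ℝ) := by
    exact_mod_cast h2
  have hWr : (0 : ℝ) < W := by exact_mod_cast hWpos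
  refine le_trans ?_ (h1.trans h2')
  rw [div_mul_eq_mul_div, one_mul, div_le_div_iff₀ (by positivity) (by norm_num)]
  linarith

end Pool.Agent.H28
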