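import Mathlib
import Pool.Agent.H28.Sieve

set_option autoImplicit false

open Finset Filter

namespace Pool.Agent.H28

/-- existence of a point at which all the linear forms are squarefree -/
theorem sieve_exists {ι : Type*} [Fintype ι] (b : ι → ℕ) (hb : ∀ j, 0 < b j) (y : ℕ)
    (hy : Fintype.card ι ≤ y)
    (hb2 : ∀ q : ℕ, q.Prime → y < q → ∀ j, ¬ q ^ 2 ∣ b j)
    (a : ι → ℕ) (ha : ∀ j, 0 < a j)
    (hloc : ∀ q : ℕ, q.Prime → q ≤ y → ∀ j, q ^ 2 ∣ b j ∧ ¬ q ^ 2 ∣ a j) :
    ∃ t, ∀ j, Squarefree (b j * t + a j) := by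
  obtain ⟨c, hc, h⟩ := sieve b hb y hy hb2
  obtain ⟨T, hT⟩ := (((h a ha hloc).and (eventually_gt_atTop 0))).exists
  have h1 : (0 : ℝ) < c * T := by
    have : (0 : ℝ) < T := by exact_mod_cast hT.2
    positivity
  have h2 : 0 < ((Finset.range T).filter (fun t => ∀ j, Squarefree (b j * t + a j))).card := by
    have := h1.trans_le hT.1
    exact_mod_cast this
  obtain ⟨t, ht⟩ := Finset.card_pos.1 h2
  exact ⟨t, (Finset.mem_filter.1 ht).2⟩

theorem not_sq_dvd_aux {q : ℕ} (hq : q.Prime) {x c : ℕ} (h : q ^ 2 ∣ x) : ¬ q ^ 2 ∣ 1 + x * c := by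
  intro h2
  have h3 : q ^ 2 ∣ 1 := (Nat.dvd_add_left (h.mul_right c)).1 h2
  have h4 : q ^ 2 = 1 := Nat.dvd_one.1 h3
  have := hq.one_lt
  nlinarith

/-- There is a multiple `R` of `Q` such that `1 + R l` is squarefree for `l ≤ K`
and `μ (1 + R K) = -1`. -/
theorem exists_R (Q K : ℕ) (hQ : 0 < Q) (hK : 0 < K) :
    ∃ R : ℕ, 0 < R ∧ Q ∣ R ∧ (∀ l ≤ K, Squarefree (1 + R * l)) ∧
      ArithmeticFunction.moebius (1 + R * K) = -1 := by
  classical
  set y : ℕ := max (2 * K) Q with hy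
  set Q1 : ℕ := Q * (Nat.factorial y) ^ 2 with hQ1
  have hQ1pos : 0 < Q1 := Nat.mul_pos hQ (pow_pos (Nat.factorial_pos y) 2)
  obtain ⟨p, hp, hpgt, hpmod⟩ := Nat.exists_prime_gt_modEq_one (k := K * Q1) (K * Q1 + y)
    (Nat.mul_pos hK hQ1pos).ne'
  have hp1 : K * Q1 ∣ p - 1 := (Nat.modEq_iff_dvd' hp.one_lt.le).1 hpmod.symm
  obtain ⟨w, hw⟩ := hp1
  -- p = 1 + K * Q1 * w
  have hpw : p = 1 + K * Q1 * w := by have := hp.one_lt; omega
  have hq1 : ∀ q : ℕ, q.Prime → q ≤ y → q ^ 2 ∣ Q1 := by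
    intro q hq hqy
    have : q ∣ Nat.factorial y := Nat.dvd_factorial hq.pos hqy
    exact (pow_dvd_pow_of_dvd this 2).mul_left Q
  have hq2 : ∀ q : ℕ, q.Prime → y < q → ¬ q ∣ Q1 := by
    intro q hq hqy h
    rcases (Nat.Prime.dvd_mul hq).1 h with h | h
    · have h1 := Nat.le_of_dvd hQ h
      have h2 : Q ≤ y := le_max_right _ _
      omega
    · have h1 := hq.dvd_of_dvd_pow h
      have h2 := (hq.dvd_factorial).1 h1
      omega
  -- the forms
  let b : Bool × Fin K → ℕ := fun z => (if z.1 then p else 1) * (Q1 * (z.2 + 1))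
  let a : Bool × Fin K → ℕ := fun z =>
    1 + Q1 * (if z.1 then (p + w) * (z.2 + 1) else (z.2 + 1))
  have hb : ∀ z, 0 < b z := by
    intro z
    simp only [b]
    have h1 : 0 < (if z.1 then p else 1) := by split_ifs <;> [exact hp.pos; exact one_pos]
    exact Nat.mul_pos h1 (Nat.mul_pos hQ1pos (Nat.succ_pos _))
  have ha : ∀ z, 0 < a z := by intro z; simp only [a]; omega
  have hcard : Fintype.card (Bool × Fin K) ≤ y := by
    simp only [Fintype.card_prod, Fintype.card_bool, Fintype.card_fin]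
    exact le_max_left _ _
  have hb2 : ∀ q : ℕ, q.Prime → y < q → ∀ j, ¬ q ^ 2 ∣ b j := by
    intro q hq hqy z h
    have h1 : Nat.Coprime (q ^ 2) (Q1 * (z.2 + 1)) := by
      apply Nat.Coprime.pow_left
      apply Nat.Coprime.mul_right
      · exact (Nat.Prime.coprime_iff_not_dvd hq).2 (hq2 q hq hqy)
      · apply (Nat.Prime.coprime_iff_not_dvd hq).2
        intro h2
        have h3 := Nat.le_of_dvd (Nat.succ_pos _) h2
        have h4 : (z.2 : ℕ) < K := z.2.2
        have h5 : 2 * K ≤ y := le_max_left _ _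
        omega
    have h2 : q ^ 2 ∣ (if z.1 then p else 1) := h1.dvd_of_dvd_mul_right h
    split_ifs at h2
    · have h3 : q ∣ p := (dvd_pow_self q two_ne_zero).trans h2
      have h4 : q = p := (Nat.prime_dvd_prime_iff_eq hq hp).1 h3
      rw [← h4] at h2
      have h5 := Nat.le_of_dvd hq.pos h2
      have := hq.one_lt
      nlinarith
    · have h4 : q ^ 2 = 1 := Nat.dvd_one.1 h2
      have := hq.one_lt
      nlinarith
  have hloc : ∀ q : ℕ, q.Prime → q ≤ y → ∀ j, q ^ 2 ∣ b j ∧ ¬ q ^ 2 ∣ a j := by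
    intro q hq hqy z
    refine ⟨((hq1 q hq hqy).mul_right _).mul_left _, not_sq_dvd_aux hq (hq1 q hq hqy)⟩
  obtain ⟨t, ht⟩ := sieve_exists b hb y hcard hb2 a ha hloc
  set R1 : ℕ := Q1 * (t + 1) with hR1
  set R2 : ℕ := Q1 * (p * (t + 1) + w) with hR2
  have hsq1 : ∀ l ≤ K, Squarefree (1 + R1 * l) := by
    intro l hl
    rcases Nat.eq_zero_or_pos l with h0 | h0
    · subst h0; simp
    · have := ht (false, ⟨l - 1, by omega⟩)
      have e : b (false, ⟨l - 1, by omega⟩) * t + a (false, ⟨l - 1, by omega⟩) = 1 + R1 * l := by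
        have hl1 : l - 1 + 1 = l := by omega
        simp only [b, a, hR1, Bool.false_eq_true, if_false, hl1]
        ring
      rwa [e] at this
  have hsq2 : ∀ l ≤ K, Squarefree (1 + R2 * l) := by
    intro l hl
    rcases Nat.eq_zero_or_pos l with h0 | h0
    · subst h0; simp
    · have := ht (true, ⟨l - 1, by omega⟩)
      have e : b (true, ⟨l - 1, by omega⟩) * t + a (true, ⟨l - 1, by omega⟩) = 1 + R2 * l := by
        have hl1 : l - 1 + 1 = l := by omega
        simp only [b, a, hR2, if_true, hl1]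
        ring
      rwa [e] at this
  have hrel : 1 + R2 * K = p * (1 + R1 * K) := by
    have : p * (1 + R1 * K) = p + p * (R1 * K) := by ring
    rw [this, hR2, hR1]
    nth_rewrite 2 [hpw]
    ring
  have hmu : ArithmeticFunction.moebius (1 + R2 * K) =
      - ArithmeticFunction.moebius (1 + R1 * K) := by
    have h1 := hsq2 K le_rfl
    rw [hrel] at h1
    have h2 : Nat.Coprime p (1 + R1 * K) := Nat.coprime_of_squarefree_mul h1
    rw [hrel, ArithmeticFunction.isMultiplicative_moebius.map_mul_of_coprime h2,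
      ArithmeticFunction.moebius_apply_prime hp]
    ring
  have hne : ArithmeticFunction.moebius (1 + R1 * K) ≠ 0 :=
    ArithmeticFunction.moebius_ne_zero_iff_squarefree.2 (hsq1 K le_rfl)
  rcases ArithmeticFunction.moebius_ne_zero_iff_eq_or.1 hne with h | h
  · refine ⟨R2, Nat.mul_pos hQ1pos (by have := hp.pos; positivity), ?_, hsq2, ?_⟩
    · exact (Dvd.intro _ rfl : Q ∣ Q1).mul_right _
    · rw [hmu, h]
  · refine ⟨R1, Nat.mul_pos hQ1pos (Nat.succ_pos _), ?_, hsq1, h⟩
    exact (Dvd.intro _ rfl : Q ∣ Q1).mul_right _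

/-- A window of `K` consecutive terms on which the product of `μ` is `-1`. -/
theorem exists_window (Q K : ℕ) (hQ : 0 < Q) (hK : 0 < K) :
    ∃ R e : ℕ, 0 < R ∧ Q ∣ R ∧ (∀ l < K, Squarefree (1 + R * (e + l))) ∧
      ∏ l ∈ Finset.range K, ArithmeticFunction.moebius (1 + R * (e + l)) = -1 := by
  obtain ⟨R, hR, hQR, hsq, hmu⟩ := exists_R Q K hQ hK
  have h1 := Finset.prod_range_succ (fun l => ArithmeticFunction.moebius (1 + R * l)) K
  have h2 := Finset.prod_range_succ' (fun l => ArithmeticFunction.moebius (1 + R * l)) K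
  rw [h1] at h2
  simp only [Nat.mul_zero, Nat.add_zero, ArithmeticFunction.moebius_apply_one, mul_one, hmu] at h2
  have hunit : ∀ s : Finset ℕ, ∀ g : ℕ → ℕ, (∀ l ∈ s, Squarefree (g l)) →
      (∏ l ∈ s, ArithmeticFunction.moebius (g l) = 1 ∨
        ∏ l ∈ s, ArithmeticFunction.moebius (g l) = -1) := by
    intro s g hg
    induction s using Finset.induction_on with
    | empty => simp
    | insert x s hx ih =>
      rw [Finset.prod_insert hx]
      have h3 := ih (fun l hl => hg l (Finset.mem_insert_of_mem hl))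
      have h4 := ArithmeticFunction.moebius_ne_zero_iff_eq_or.1
        (ArithmeticFunction.moebius_ne_zero_iff_squarefree.2 (hg x (Finset.mem_insert_self _ _)))
      rcases h3 with h3 | h3 <;> rcases h4 with h4 | h4 <;> simp [h3, h4]
  rcases hunit (Finset.range K) (fun l => 1 + R * l)
    (fun l hl => hsq l (Finset.mem_range.1 hl).le) with h3 | h3
  · refine ⟨R, 1, hR, hQR, fun l hl => hsq (1 + l) (by omega), ?_⟩
    have h4 : ∏ l ∈ Finset.range K, ArithmeticFunction.moebius (1 + R * (1 + l)) =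
        ∏ l ∈ Finset.range K, ArithmeticFunction.moebius (1 + R * (l + 1)) := by
      apply Finset.prod_congr rfl; intro l _; rw [add_comm 1 l]
    rw [h4, ← h2, h3]; norm_num
  · refine ⟨R, 0, hR, hQR, fun l hl => hsq (0 + l) (by omega), ?_⟩
    simpa using h3

end Pool.Agent.H28
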