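import Mathlib
import Pool.Agent.H28.SignLemma

set_option autoImplicit false

open Finset Filter

namespace Pool.Agent.H28

/-- binary value of a 0-1 vector -/
def bval {r : ℕ} (f : Fin r → Fin 2) : ℕ := ∑ i, (f i : ℕ) * 2 ^ (i : ℕ)

/-- dilation factors -/
def dd {r : ℕ} (R e : ℕ) (f : Fin r → Fin 2) : ℕ := 1 + R * (e + bval f)

/-- translations -/
def cc {r : ℕ} (R : ℕ) (α : Fin r → ℤ) (f : Fin r → Fin 2) : ℤ :=
  R * ∑ i, ((f i : ℕ) : ℤ) * 2 ^ (i : ℕ) * α i

theorem bval_lt {r : ℕ} (f : Fin r → Fin 2) : bval f < 2 ^ r := by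
  have h := (finFunctionFinEquiv f).2
  rwa [finFunctionFinEquiv_apply] at h

theorem bval_inj {r : ℕ} {f g : Fin r → Fin 2} (h : bval f = bval g) : f = g := by
  apply finFunctionFinEquiv.injective
  apply Fin.ext
  rw [finFunctionFinEquiv_apply, finFunctionFinEquiv_apply]
  exact h

theorem prod_bval {r : ℕ} (G : ℕ → ℤ) :
    ∏ f : Fin r → Fin 2, G (bval f) = ∏ l ∈ Finset.range (2 ^ r), G l := by
  rw [← Fin.prod_univ_eq_prod_range]
  have h := Equiv.prod_comp (finFunctionFinEquiv (m := 2) (n := r)) (fun l => G (l : ℕ))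
  rw [← h]
  apply Finset.prod_congr rfl
  intro f _
  simp only [finFunctionFinEquiv_apply]
  rfl

theorem key {r : ℕ} (R e : ℕ) (α : Fin r → ℤ) (m : ℤ) (f g : Fin r → Fin 2) (i : Fin r)
    (hfg : ∀ j, j ≠ i → f j = g j) :
    m - cc R α f + (dd R e f : ℤ) * α i = m - cc R α g + (dd R e g : ℤ) * α i := by
  have h : ∑ j, (((f j : ℕ) : ℤ) - ((g j : ℕ) : ℤ)) * 2 ^ (j : ℕ) * (α i - α j) = 0 := by
    apply Finset.sum_eq_zero
    intro j _
    by_cases hj : j = i
    · rw [hj]; ring
    · rw [hfg j hj]; ring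
  have h2 : ∑ j, (((f j : ℕ) : ℤ) - ((g j : ℕ) : ℤ)) * 2 ^ (j : ℕ) * (α i - α j) =
      (∑ j, ((f j : ℕ) : ℤ) * 2 ^ (j : ℕ)) * α i - (∑ j, ((g j : ℕ) : ℤ) * 2 ^ (j : ℕ)) * α i
      - (∑ j, ((f j : ℕ) : ℤ) * 2 ^ (j : ℕ) * α j) + ∑ j, ((g j : ℕ) : ℤ) * 2 ^ (j : ℕ) * α j := by
    rw [Finset.sum_mul, Finset.sum_mul, ← Finset.sum_sub_distrib, ← Finset.sum_sub_distrib,
      ← Finset.sum_add_distrib]
    apply Finset.sum_congr rfl
    intro j _; ring
  rw [h2] at h
  simp only [dd, cc, bval]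
  push_cast
  linear_combination (R : ℤ) * h

theorem prod_eq_one_of_toggle {r : ℕ} (i : Fin r) (G : (Fin r → Fin 2) → ℤ)
    (hG : ∀ f, G f = 1 ∨ G f = -1)
    (hinv : ∀ f g : Fin r → Fin 2, (∀ j, j ≠ i → f j = g j) → G f = G g) :
    ∏ f, G f = 1 := by
  have hupd : ∀ f : Fin r → Fin 2, G (Function.update f i (f i + 1)) = G f := by
    intro f
    apply hinv
    intro j hj
    exact Function.update_of_ne hj _ _
  refine Finset.prod_involution (fun f _ => Function.update f i (f i + 1)) ?_ ?_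
    (fun f _ => Finset.mem_univ _) ?_
  · intro f _
    rw [hupd]
    rcases hG f with h | h <;> rw [h] <;> norm_num
  · intro f _ _ h
    have h1 := congrFun h i
    rw [Function.update_self] at h1
    have h2 : ∀ x : Fin 2, x + 1 ≠ x := by decide
    exact h2 _ h1
  · intro f _
    have h2 : ∀ x : Fin 2, x + 1 + 1 = x := by decide
    funext j
    by_cases hj : j = i
    · subst hj; simp [h2]
    · simp [Function.update_of_ne hj]

theorem liouville_eq_moebius {n : ℕ} (h : Squarefree n) :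
    ArithmeticFunction.liouville n = ArithmeticFunction.moebius n := by
  rw [ArithmeticFunction.liouville_apply h.ne_zero,
    ArithmeticFunction.moebius_apply_of_squarefree h]

theorem liouville_eq_or {n : ℕ} (h : n ≠ 0) :
    ArithmeticFunction.liouville n = 1 ∨ ArithmeticFunction.liouville n = -1 := by
  rw [ArithmeticFunction.liouville_apply h]
  exact neg_one_pow_eq_or ℤ _

theorem product_identity {r : ℕ} (R e : ℕ) (α : Fin r → ℤ) (m : ℤ)
    (x : (Fin r → Fin 2) → Fin r → ℕ) (n : (Fin r → Fin 2) → ℤ)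
    (hn : ∀ f, (dd R e f : ℤ) * n f = m - cc R α f)
    (hx : ∀ f i, (x f i : ℤ) = n f + α i) (hsq : ∀ f i, Squarefree (x f i))
    (hd : ∀ f : Fin r → Fin 2, Squarefree (dd R e f))
    (hprod : ∏ f : Fin r → Fin 2, ArithmeticFunction.moebius (dd R e f) = -1) (i : Fin r) :
    ∏ f, ArithmeticFunction.moebius (x f i) = -1 := by
  have h1 : ∏ f, ArithmeticFunction.liouville (dd R e f * x f i) = 1 := by
    apply prod_eq_one_of_toggle i
    · intro f
      exact liouville_eq_or (Nat.mul_ne_zero (hd f).ne_zero (hsq f i).ne_zero)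
    · intro f g hfg
      have h2 : dd R e f * x f i = dd R e g * x g i := by
        have h3 := key R e α m f g i hfg
        rw [← hn f, ← hn g] at h3
        have h4 : ((dd R e f * x f i : ℕ) : ℤ) = ((dd R e g * x g i : ℕ) : ℤ) := by
          push_cast
          rw [hx, hx]
          linear_combination h3
        exact_mod_cast h4
      rw [h2]
  have h2 : ∏ f, ArithmeticFunction.liouville (dd R e f * x f i) =
      (∏ f : Fin r → Fin 2, ArithmeticFunction.moebius (dd R e f)) *
      ∏ f, ArithmeticFunction.moebius (x f i) := by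
    rw [← Finset.prod_mul_distrib]
    apply Finset.prod_congr rfl
    intro f _
    rw [ArithmeticFunction.liouville_apply_mul, liouville_eq_moebius (hd f),
      liouville_eq_moebius (hsq f i)]
  rw [h2, hprod] at h1
  linarith

theorem exists_signs {Ω : Type*} [Fintype Ω] (F : Ω → ℤ) (hF : ∀ f, F f = 1 ∨ F f = -1)
    (heven : Even (Fintype.card Ω)) (hprod : ∏ f, F f = -1) :
    (∃ f, F f = 1) ∧ (∃ f, F f = -1) := by
  constructor
  · by_contra hcon
    push Not at hcon
    have h1 : ∀ f, F f = -1 := fun f => (hF f).resolve_left (hcon f)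
    have h2 : ∏ f, F f = 1 := by
      rw [Finset.prod_congr rfl (fun f _ => h1 f), Finset.prod_const, Finset.card_univ]
      exact heven.neg_one_pow
    rw [h2] at hprod
    norm_num at hprod
  · by_contra hcon
    push Not at hcon
    have h1 : ∀ f, F f = 1 := fun f => (hF f).resolve_right (hcon f)
    have h2 : ∏ f, F f = 1 := Finset.prod_eq_one (fun f _ => h1 f)
    rw [h2] at hprod
    norm_num at hprod

theorem dd_coprime {r : ℕ} {R e y : ℕ} (hy : 2 ^ r ≤ y)
    (hR : ∀ p : ℕ, p.Prime → p ≤ y → p ∣ R) {f g : Fin r → Fin 2} (hfg : f ≠ g) :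
    Nat.Coprime (dd R e f) (dd R e g) := by
  apply Nat.Coprime.symm
  by_contra hcon
  obtain ⟨p, hp, hpg, hpf⟩ := Nat.Prime.not_coprime_iff_dvd.1 hcon
  have hpR : ¬ p ∣ R := by
    intro h
    have h1 : p ∣ 1 := by
      have h2 : p ∣ dd R e f := hpf
      rw [dd] at h2
      exact (Nat.dvd_add_left (h.mul_right _)).1 h2
    exact hp.one_lt.ne' (Nat.dvd_one.1 h1)
  have hpy : y < p := by
    by_contra h
    push Not at h
    exact hpR (hR p hp h)
  have h3 : (p : ℤ) ∣ (dd R e f : ℤ) - dd R e g :=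
    dvd_sub (Int.natCast_dvd_natCast.2 hpf) (Int.natCast_dvd_natCast.2 hpg)
  have h4 : (dd R e f : ℤ) - dd R e g = R * ((bval f : ℤ) - bval g) := by
    simp only [dd]; push_cast; ring
  rw [h4] at h3
  have hpp : Prime (p : ℤ) := Nat.prime_iff_prime_int.1 hp
  rcases hpp.dvd_or_dvd h3 with h | h
  · exact hpR (Int.natCast_dvd_natCast.1 h)
  · have h5 : (bval f : ℤ) - bval g ≠ 0 := by
      intro h0
      apply hfg
      apply bval_inj
      have : (bval f : ℤ) = bval g := by linarith
      exact_mod_cast this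
    have h6 := Int.le_of_dvd (abs_pos.2 h5) ((dvd_abs _ _).2 h)
    have h7 := bval_lt f
    have h8 := bval_lt g
    have h9 : |(bval f : ℤ) - bval g| < 2 ^ r := by
      rw [abs_lt]
      have h7' : (bval f : ℤ) < 2 ^ r := by exact_mod_cast h7
      have h8' : (bval g : ℤ) < 2 ^ r := by exact_mod_cast h8
      constructor <;> linarith [Int.natCast_nonneg (bval f), Int.natCast_nonneg (bval g)]
    have h10 : (p : ℤ) < 2 ^ r := lt_of_le_of_lt h6 h9
    have h11 : p < 2 ^ r := by exact_mod_cast h10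
    omega

end Pool.Agent.H28
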