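import Mathlib
import Pool.Agent.H28.ChowlaOdd

set_option autoImplicit false

open Finset Filter

namespace Pool.Agent.H28

/-- symmetric `±1` array: the double product equals the diagonal product -/
theorem prod_symm_diag {ι : Type*} [DecidableEq ι] (J : Finset ι) (G : ι → ι → ℤ)
    (hsymm : ∀ i j, G i j = G j i) (hpm : ∀ i ∈ J, ∀ j ∈ J, G i j = 1 ∨ G i j = -1) :
    ∏ i ∈ J, ∏ j ∈ J, G i j = ∏ i ∈ J, G i i := by
  induction J using Finset.induction_on with
  | empty => simp
  | insert a s ha ih =>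
    rw [Finset.prod_insert ha, Finset.prod_insert ha, Finset.prod_insert ha]
    have h1 : ∏ i ∈ s, ∏ j ∈ insert a s, G i j = (∏ i ∈ s, G i a) * ∏ i ∈ s, ∏ j ∈ s, G i j := by
      rw [← Finset.prod_mul_distrib]
      apply Finset.prod_congr rfl
      intro i _
      rw [Finset.prod_insert ha]
    rw [h1, ih (fun i hi j hj => hpm i (Finset.mem_insert_of_mem hi) j (Finset.mem_insert_of_mem hj))]
    have h2 : ∏ i ∈ s, G i a = ∏ j ∈ s, G a j :=
      Finset.prod_congr rfl (fun i _ => hsymm i a)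
    have h3 : (∏ j ∈ s, G a j) * (∏ j ∈ s, G a j) = 1 := by
      rw [← Finset.prod_mul_distrib]
      apply Finset.prod_eq_one
      intro j hj
      rcases hpm a (Finset.mem_insert_self _ _) j (Finset.mem_insert_of_mem hj) with h | h <;>
        rw [h] <;> norm_num
    rw [h2]
    calc G a a * (∏ j ∈ s, G a j) * ((∏ j ∈ s, G a j) * ∏ i ∈ s, G i i)
        = G a a * ((∏ j ∈ s, G a j) * (∏ j ∈ s, G a j)) * ∏ i ∈ s, G i i := by ring
      _ = G a a * ∏ i ∈ s, G i i := by rw [h3, mul_one]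

theorem pow_of_odd_pm {x : ℤ} (hx : x = 1 ∨ x = -1) {e : ℕ} (he : Odd e) : x ^ e = x := by
  rcases hx with h | h
  · rw [h, one_pow]
  · rw [h, he.neg_one_pow]

theorem pow_of_even_pm {x : ℤ} (hx : x = 1 ∨ x = -1) {e : ℕ} (he : ¬ Odd e) : x ^ e = 1 := by
  rw [Nat.not_odd_iff_even] at he
  rcases hx with h | h
  · rw [h, one_pow]
  · rw [h, he.neg_one_pow]

theorem prod_pow_eq_odd {r : ℕ} (g : Fin r → ℤ) (ε : Fin r → ℕ) (hg : ∀ i, g i = 1 ∨ g i = -1) :
    ∏ i, g i ^ ε i = ∏ i ∈ Finset.univ.filter (fun i => Odd (ε i)), g i := by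
  rw [Finset.prod_filter]
  apply Finset.prod_congr rfl
  intro i _
  split_ifs with h
  · exact pow_of_odd_pm (hg i) h
  · exact pow_of_even_pm (hg i) h

theorem moebius_pm {n : ℕ} (h : Squarefree n) :
    ArithmeticFunction.moebius n = 1 ∨ ArithmeticFunction.moebius n = -1 :=
  ArithmeticFunction.moebius_ne_zero_iff_eq_or.1
    (ArithmeticFunction.moebius_ne_zero_iff_squarefree.2 h)

/-- the Frobenius relation: not all of `F(m)`, `F(2m+α_j)` are `-1` -/
theorem frobenius_relation {r : ℕ} (ε : Fin r → ℕ) (x : Fin r → ℕ) (z : Fin r → Fin r → ℕ)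
    (hx : ∀ i, Squarefree (x i)) (hz : ∀ i j, Odd (ε j) → Squarefree (z i j))
    (hsymm : ∀ i j, z i j = z j i) (hdiag : ∀ i, z i i = 2 * x i) :
    (∏ i, ArithmeticFunction.moebius (x i) ^ ε i = 1) ∨
    ∃ j, Odd (ε j) ∧ ∏ i, ArithmeticFunction.moebius (z i j) ^ ε i = 1 := by
  classical
  by_contra hcon
  push Not at hcon
  obtain ⟨h1, h2⟩ := hcon
  set J := Finset.univ.filter (fun i => Odd (ε i)) with hJ
  have hF : ∏ i, ArithmeticFunction.moebius (x i) ^ ε i =
      ∏ i ∈ J, ArithmeticFunction.moebius (x i) :=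
    prod_pow_eq_odd _ ε (fun i => moebius_pm (hx i))
  have hFj : ∀ j, Odd (ε j) → ∏ i, ArithmeticFunction.moebius (z i j) ^ ε i =
      ∏ i ∈ J, ArithmeticFunction.moebius (z i j) := fun j hj =>
    prod_pow_eq_odd _ ε (fun i => moebius_pm (hz i j hj))
  have hpmprod : ∀ (s : Finset (Fin r)) (g : Fin r → ℤ), (∀ i ∈ s, g i = 1 ∨ g i = -1) →
      (∏ i ∈ s, g i = 1 ∨ ∏ i ∈ s, g i = -1) := by
    intro s g hg
    induction s using Finset.induction_on with
    | empty => left; simp
    | insert a s ha ih =>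
      rw [Finset.prod_insert ha]
      have h3 := ih (fun l hl => hg l (Finset.mem_insert_of_mem hl))
      have h4 := hg a (Finset.mem_insert_self _ _)
      rcases h3 with h3 | h3 <;> rcases h4 with h4 | h4 <;> simp [h3, h4]
  have hFm : ∏ i ∈ J, ArithmeticFunction.moebius (x i) = -1 := by
    rcases hpmprod J (fun i => ArithmeticFunction.moebius (x i))
      (fun i _ => moebius_pm (hx i)) with h | h
    · exact absurd (hF.trans h) h1
    · exact h
  have hFjm : ∀ j ∈ J, ∏ i ∈ J, ArithmeticFunction.moebius (z i j) = -1 := by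
    intro j hj
    have hj' : Odd (ε j) := (Finset.mem_filter.1 hj).2
    rcases hpmprod J (fun i => ArithmeticFunction.moebius (z i j))
      (fun i _ => moebius_pm (hz i j hj')) with h | h
    · exact absurd ((hFj j hj').trans h) (h2 j hj')
    · exact h
  have hA : ∏ j ∈ J, ∏ i ∈ J, ArithmeticFunction.moebius (z j i) = (-1) ^ J.card := by
    rw [Finset.prod_comm, Finset.prod_congr rfl hFjm, Finset.prod_const]
  have hB : ∏ j ∈ J, ∏ i ∈ J, ArithmeticFunction.moebius (z j i) =
      ∏ i ∈ J, ArithmeticFunction.moebius (z i i) := by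
    apply prod_symm_diag
    · intro i j; rw [hsymm]
    · intro i _ j hj
      exact moebius_pm (hz i j (Finset.mem_filter.1 hj).2)
  have hC : ∏ i ∈ J, ArithmeticFunction.moebius (z i i) =
      ∏ i ∈ J, (-1) * ArithmeticFunction.moebius (x i) := by
    apply Finset.prod_congr rfl
    intro i hi
    have hsq := hz i i (Finset.mem_filter.1 hi).2
    rw [hdiag] at hsq
    rw [hdiag, ArithmeticFunction.isMultiplicative_moebius.map_mul_of_coprime
      (Nat.coprime_of_squarefree_mul hsq), ArithmeticFunction.moebius_apply_prime Nat.prime_two]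
  rw [Finset.prod_mul_distrib, Finset.prod_const, hFm] at hC
  rw [hB, hC] at hA
  have h5 : ((-1 : ℤ) ^ J.card) ≠ 0 := pow_ne_zero _ (by norm_num)
  have h6 : ((-1 : ℤ) ^ J.card) * (-1 - 1) = 0 := by linear_combination hA
  rcases mul_eq_zero.1 h6 with h | h
  · exact h5 h
  · norm_num at h

end Pool.Agent.H28
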