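import Mathlib
import Pool.Agent.H28.ChowlaEven

set_option autoImplicit false

open Finset Filter

namespace Pool.Agent.H28

theorem pos_of_squarefree_toNat {x : ℤ} (h : Squarefree x.toNat) : 0 < x := by
  by_contra hneg
  push Not at hneg
  rw [Int.toNat_of_nonpos hneg] at h
  exact h.ne_zero rfl

theorem chowla_even_main (r : ℕ) :
    ∃ c : ℝ, 0 < c ∧
      ∀ (α : Fin r → ℤ) (ε : Fin r → ℕ), ∀ m₀ : ℕ,
        (∀ i, Squarefree ((m₀ + α i).toNat)) →
        (∀ i j, Odd (ε j) → Squarefree ((2 * m₀ + α i + α j).toNat)) →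
          ∀ᶠ N : ℕ in atTop,
            c * N ≤ (((Finset.Icc 1 N).filter (fun n : ℕ =>
              ∏ i, ArithmeticFunction.moebius ((n + α i).toNat) ^ ε i = 1)).card : ℝ) := by
  classical
  set y : ℕ := r + r * r + 2 with hy
  set Q : ℕ := (Nat.factorial y) ^ 2 with hQ
  have hQpos : 0 < Q := pow_pos (Nat.factorial_pos y) 2
  have hQr : (0 : ℝ) < Q := by exact_mod_cast hQpos
  have hp2 : ∀ p : ℕ, p.Prime → p ≤ y → p ^ 2 ∣ Q := by
    intro p hp hpy
    exact pow_dvd_pow_of_dvd (Nat.dvd_factorial hp.pos hpy) 2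
  have hpy : ∀ p : ℕ, p.Prime → y < p → ¬ p ∣ Q := by
    intro p hp hpy h
    have h1 := hp.dvd_of_dvd_pow h
    have h2 := (hp.dvd_factorial).1 h1
    omega
  let b : Fin r ⊕ (Fin r × Fin r) → ℕ := fun z => Sum.elim (fun _ => Q) (fun _ => 2 * Q) z
  have hb : ∀ z, 0 < b z := by
    intro z
    cases z <;> simp only [b, Sum.elim_inl, Sum.elim_inr] <;> omega
  have hcard : Fintype.card (Fin r ⊕ (Fin r × Fin r)) ≤ y := by
    simp only [Fintype.card_sum, Fintype.card_fin, Fintype.card_prod]
    omega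
  have hb2 : ∀ p : ℕ, p.Prime → y < p → ∀ z, ¬ p ^ 2 ∣ b z := by
    intro p hp hpy' z h
    have h1 : ¬ p ∣ b z := by
      cases z with
      | inl i => exact hpy p hp hpy'
      | inr ij =>
        intro h2
        rcases (Nat.Prime.dvd_mul hp).1 h2 with h3 | h3
        · have := Nat.le_of_dvd (by norm_num) h3
          omega
        · exact hpy p hp hpy' h3
    exact h1 ((dvd_pow_self p two_ne_zero).trans h)
  obtain ⟨c1, hc1, hsieve⟩ := sieve b hb y hcard hb2
  refine ⟨c1 / ((r + 1) * (4 * Q)), by positivity, ?_⟩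
  intro α ε m₀ h0 h1
  have hpos1 : ∀ i, 0 < (m₀ : ℤ) + α i := fun i => pos_of_squarefree_toNat (h0 i)
  let a : Fin r ⊕ (Fin r × Fin r) → ℕ := fun z =>
    Sum.elim (fun i => (m₀ + α i).toNat + Q)
      (fun ij => (if Odd (ε ij.2) then (2 * m₀ + α ij.1 + α ij.2).toNat else 1) + 2 * Q) z
  have ha : ∀ z, 0 < a z := by
    intro z
    cases z <;> simp only [a, Sum.elim_inl, Sum.elim_inr] <;> omega
  have hnsq : ∀ p : ℕ, p.Prime → ∀ x : ℕ, Squarefree x → ¬ p ^ 2 ∣ x := by
    intro p hp x hx hd
    exact hp.one_lt.ne' (Nat.isUnit_iff.1 (hx p (by rwa [← pow_two])))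
  have hloc : ∀ p : ℕ, p.Prime → p ≤ y → ∀ z, p ^ 2 ∣ b z ∧ ¬ p ^ 2 ∣ a z := by
    intro p hp hpy' z
    have hQd := hp2 p hp hpy'
    cases z with
    | inl i =>
      refine ⟨hQd, ?_⟩
      intro h
      exact hnsq p hp _ (h0 i) ((Nat.dvd_add_left hQd).1 h)
    | inr ij =>
      refine ⟨hQd.mul_left 2, ?_⟩
      intro h
      have h2 := (Nat.dvd_add_left (hQd.mul_left 2)).1 h
      by_cases hodd : Odd (ε ij.2)
      · rw [if_pos hodd] at h2
        exact hnsq p hp _ (h1 ij.1 ij.2 hodd) h2
      · rw [if_neg hodd] at h2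
        exact hnsq p hp _ squarefree_one h2
  have hev := hsieve a ha hloc
  set F : ℕ → ℤ := fun n => ∏ i, ArithmeticFunction.moebius ((n + α i).toNat) ^ ε i with hF
  -- good points
  have hgood : ∀ t : ℕ, (∀ z, Squarefree (b z * t + a z)) →
      F (m₀ + Q * (t + 1)) = 1 ∨ ∃ j, F ((2 * (m₀ + Q * (t + 1) : ℕ) + α j).toNat) = 1 := by
    intro t ht
    set m : ℕ := m₀ + Q * (t + 1) with hm
    have hx : ∀ i, Squarefree (((m : ℤ) + α i).toNat) := by
      intro i
      have h2 := ht (Sum.inl i)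
      have e : b (Sum.inl i) * t + a (Sum.inl i) = ((m : ℤ) + α i).toNat := by
        simp only [b, a, Sum.elim_inl]
        have h3 := hpos1 i
        zify
        rw [Int.toNat_of_nonneg h3.le, Int.toNat_of_nonneg (by rw [hm]; push_cast; nlinarith)]
        rw [hm]; push_cast; ring
      rwa [e] at h2
    have hz : ∀ i j, Odd (ε j) → Squarefree ((2 * (m : ℤ) + α i + α j).toNat) := by
      intro i j hj
      have h2 := ht (Sum.inr (i, j))
      have e : b (Sum.inr (i, j)) * t + a (Sum.inr (i, j)) = (2 * (m : ℤ) + α i + α j).toNat := by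
        simp only [b, a, Sum.elim_inr, if_pos hj]
        have h3 := hpos1 i
        have h4 := hpos1 j
        have h5 : (0 : ℤ) ≤ 2 * m₀ + α i + α j := by linarith
        zify
        rw [Int.toNat_of_nonneg h5, Int.toNat_of_nonneg (by rw [hm]; push_cast; nlinarith)]
        rw [hm]; push_cast; ring
      rwa [e] at h2
    have hmpos : ∀ i, 0 < (m : ℤ) + α i := fun i => pos_of_squarefree_toNat (hx i)
    rcases frobenius_relation ε (fun i => ((m : ℤ) + α i).toNat)
      (fun i j => (2 * (m : ℤ) + α i + α j).toNat) hx hz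
      (fun i j => by
        have : 2 * (m : ℤ) + α i + α j = 2 * (m : ℤ) + α j + α i := by ring
        rw [this])
      (fun i => by
        have h3 := hmpos i
        zify
        rw [Int.toNat_of_nonneg h3.le, Int.toNat_of_nonneg (by linarith)]
        ring) with h | ⟨j, _, hj⟩
    · left; exact h
    · right
      refine ⟨j, ?_⟩
      rw [← hj]
      simp only [hF]
      apply Finset.prod_congr rfl
      intro i _
      have h3 := hmpos j
      have h4 : (0 : ℤ) ≤ 2 * (m : ℤ) + α j := by
        have : (0 : ℤ) ≤ m := Int.natCast_nonneg m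
        linarith
      rw [Int.toNat_of_nonneg h4]
      congr 3
      ring
  -- counting
  set A : ℕ := ∑ i, (α i).natAbs with hA
  have hAle : ∀ i, (α i).natAbs ≤ A := fun i =>
    Finset.single_le_sum (f := fun i => (α i).natAbs) (fun _ _ => Nat.zero_le _)
      (Finset.mem_univ i)
  have hcount : ∀ T N : ℕ, 2 * (m₀ + Q * (T + 1)) + A ≤ N →
      ((Finset.range T).filter (fun t => ∀ z, Squarefree (b z * t + a z))).card ≤
      (r + 1) * ((Finset.Icc 1 N).filter (fun n : ℕ => F n = 1)).card := by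
    intro T N hTN
    set good := (Finset.range T).filter (fun t => ∀ z, Squarefree (b z * t + a z)) with hgooddef
    have hsub : good ⊆
        (good.filter (fun t => F (m₀ + Q * (t + 1)) = 1)) ∪ Finset.univ.biUnion (fun j : Fin r =>
          good.filter (fun t => F ((2 * (m₀ + Q * (t + 1) : ℕ) + α j).toNat) = 1)) := by
      intro t ht
      rw [Finset.mem_union, Finset.mem_biUnion]
      rcases hgood t (Finset.mem_filter.1 ht).2 with h | ⟨j, hj⟩
      · left; exact Finset.mem_filter.2 ⟨ht, h⟩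
      · right; exact ⟨j, Finset.mem_univ _, Finset.mem_filter.2 ⟨ht, hj⟩⟩
    have hpiece0 : (good.filter (fun t => F (m₀ + Q * (t + 1)) = 1)).card ≤
        ((Finset.Icc 1 N).filter (fun n : ℕ => F n = 1)).card := by
      apply Finset.card_le_card_of_injOn (fun t => m₀ + Q * (t + 1))
      · intro t ht
        simp only [coe_filter, Set.mem_ofPred_eq, mem_Icc] at ht ⊢
        have h2 : t < T := Finset.mem_range.1 (Finset.mem_filter.1 ht.1).1
        refine ⟨⟨?_, ?_⟩, ht.2⟩
        · have : 0 < Q * (t + 1) := Nat.mul_pos hQpos (Nat.succ_pos _)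
          omega
        · have : Q * (t + 1) ≤ Q * (T + 1) := Nat.mul_le_mul_left _ (by omega)
          omega
      · intro t _ u _ h
        simp only at h
        have : Q * (t + 1) = Q * (u + 1) := by omega
        have := Nat.eq_of_mul_eq_mul_left hQpos this
        omega
    have hpiece : ∀ j : Fin r,
        (good.filter (fun t => F ((2 * (m₀ + Q * (t + 1) : ℕ) + α j).toNat) = 1)).card ≤
        ((Finset.Icc 1 N).filter (fun n : ℕ => F n = 1)).card := by
      intro j
      have hnn : ∀ t : ℕ, 0 < (2 * ((m₀ + Q * (t + 1) : ℕ) : ℤ) + α j) := by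
        intro t
        have h2 := hpos1 j
        have h3 : (0 : ℤ) ≤ (Q : ℤ) * (t + 1) := by positivity
        push_cast
        have h4 : (0 : ℤ) ≤ m₀ := Int.natCast_nonneg m₀
        linarith
      apply Finset.card_le_card_of_injOn
        (fun t => (2 * ((m₀ + Q * (t + 1) : ℕ) : ℤ) + α j).toNat)
      · intro t ht
        simp only [coe_filter, Set.mem_ofPred_eq, mem_Icc] at ht ⊢
        have h2 : t < T := Finset.mem_range.1 (Finset.mem_filter.1 ht.1).1
        refine ⟨⟨?_, ?_⟩, ht.2⟩
        · have := hnn t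
          omega
        · have h3 : Q * (t + 1) ≤ Q * (T + 1) := Nat.mul_le_mul_left _ (by omega)
          have h4 := hAle j
          have h5 : α j ≤ (α j).natAbs := Int.le_natAbs
          have h6 : ((α j).natAbs : ℤ) ≤ A := by exact_mod_cast h4
          have h7 : ((2 * (m₀ + Q * (T + 1)) + A : ℕ) : ℤ) ≤ N := by exact_mod_cast hTN
          have h8 : ((Q * (t + 1) : ℕ) : ℤ) ≤ ((Q * (T + 1) : ℕ) : ℤ) := by exact_mod_cast h3
          rw [Int.toNat_le]
          push_cast at h7 h8 ⊢
          linarith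
      · intro t _ u _ h
        simp only at h
        have h2 : (2 * ((m₀ + Q * (t + 1) : ℕ) : ℤ) + α j) =
            (2 * ((m₀ + Q * (u + 1) : ℕ) : ℤ) + α j) := by
          have := congrArg (fun k : ℕ => (k : ℤ)) h
          rwa [Int.toNat_of_nonneg (hnn t).le, Int.toNat_of_nonneg (hnn u).le] at this
        have h3 : ((Q * (t + 1) : ℕ) : ℤ) = ((Q * (u + 1) : ℕ) : ℤ) := by
          push_cast at h2 ⊢
          linarith
        have h4 : Q * (t + 1) = Q * (u + 1) := by exact_mod_cast h3
        have := Nat.eq_of_mul_eq_mul_left hQpos h4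
        omega
    calc good.card ≤ _ := Finset.card_le_card hsub
      _ ≤ (good.filter (fun t => F (m₀ + Q * (t + 1)) = 1)).card +
          (Finset.univ.biUnion (fun j : Fin r =>
          good.filter (fun t => F ((2 * (m₀ + Q * (t + 1) : ℕ) + α j).toNat) = 1))).card :=
          Finset.card_union_le _ _
      _ ≤ ((Finset.Icc 1 N).filter (fun n : ℕ => F n = 1)).card +
          ∑ _j : Fin r, ((Finset.Icc 1 N).filter (fun n : ℕ => F n = 1)).card := by
          apply Nat.add_le_add hpiece0
          exact Finset.card_biUnion_le.trans (Finset.sum_le_sum (fun j _ => hpiece j))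
      _ = (r + 1) * ((Finset.Icc 1 N).filter (fun n : ℕ => F n = 1)).card := by
          simp only [sum_const, card_univ, Fintype.card_fin, smul_eq_mul]
          ring
  rw [Filter.eventually_atTop] at hev
  obtain ⟨T0, hT0⟩ := hev
  rw [Filter.eventually_atTop]
  set D : ℕ := 2 * m₀ + 2 * Q + A with hD
  refine ⟨2 * Q * T0 + 2 * D + 4 * Q, ?_⟩
  intro N hN
  set T : ℕ := (N - D) / (2 * Q) with hT
  have h2Q : 0 < 2 * Q := by omega
  have hBT : 2 * Q * T ≤ N - D := Nat.mul_div_le _ _
  have hBT2 : N - D < 2 * Q * T + 2 * Q := by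
    have := Nat.lt_mul_div_succ (N - D) h2Q
    rw [hT]; linarith [this]
  have hTT0 : T0 ≤ T := by
    rw [hT, Nat.le_div_iff_mul_le h2Q]
    have : T0 * (2 * Q) = 2 * Q * T0 := mul_comm _ _
    omega
  have h1' := hT0 T hTT0
  have h2' := hcount T N (by
    have : 2 * (m₀ + Q * (T + 1)) + A = 2 * Q * T + D := by rw [hD]; ring
    omega)
  have h2'' : ((((Finset.range T).filter (fun t => ∀ z, Squarefree (b z * t + a z))).card : ℕ) : ℝ)
      ≤ (r + 1) * (((Finset.Icc 1 N).filter (fun n : ℕ => F n = 1)).card : ℝ) := by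
    exact_mod_cast h2'
  have h3' : (N : ℝ) ≤ 4 * Q * T := by
    have : N ≤ 2 * (2 * Q * T) := by omega
    have h' : (N : ℝ) ≤ 2 * (2 * Q * T) := by exact_mod_cast this
    linarith
  rw [div_mul_eq_mul_div, div_le_iff₀ (by positivity)]
  have h5 : c1 * T ≤ (r + 1) * (((Finset.Icc 1 N).filter (fun n : ℕ => F n = 1)).card : ℝ) :=
    h1'.trans h2''
  calc c1 * N ≤ c1 * (4 * Q * T) := mul_le_mul_of_nonneg_left h3' hc1.le
    _ = 4 * Q * (c1 * T) := by ring
    _ ≤ 4 * Q * ((r + 1) * (((Finset.Icc 1 N).filter (fun n : ℕ => F n = 1)).card : ℝ)) := by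
        apply mul_le_mul_of_nonneg_left h5 (by positivity)
    _ = _ := by ring

end Pool.Agent.H28
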