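import Mathlib
import Pool.Agent.H28.ChowlaOdd

set_option autoImplicit false

open Finset Filter

namespace Pool.Agent.H28

/-- Data depending only on `r` and `q`. -/
theorem exists_data (r q : ℕ) (hq : 0 < q) :
    ∃ y Q R e : ℕ, 0 < Q ∧ q ∣ Q ∧ 2 ^ r * r ≤ y ∧ Q ∣ R ∧
      (∀ p : ℕ, p.Prime → p ≤ y → p ^ 2 ∣ Q) ∧
      (∀ p : ℕ, p.Prime → y < p → ¬ p ∣ Q) ∧
      (∀ f : Fin r → Fin 2, Squarefree (dd R e f)) ∧
      (∀ f g : Fin r → Fin 2, f ≠ g → Nat.Coprime (dd R e f) (dd R e g)) ∧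
      (∏ f : Fin r → Fin 2, ArithmeticFunction.moebius (dd R e f) = -1) := by
  set y : ℕ := 2 ^ r * r + 2 ^ r + q with hy
  set Q : ℕ := q * (Nat.factorial y) ^ 2 with hQ
  have hQpos : 0 < Q := Nat.mul_pos hq (pow_pos (Nat.factorial_pos y) 2)
  obtain ⟨R, e, hR, hQR, hsq, hprod⟩ := exists_window Q (2 ^ r) hQpos (by positivity)
  have hp2 : ∀ p : ℕ, p.Prime → p ≤ y → p ^ 2 ∣ Q := by
    intro p hp hpy
    exact (pow_dvd_pow_of_dvd (Nat.dvd_factorial hp.pos hpy) 2).mul_left q
  have hy1 : 2 ^ r * r ≤ y := by rw [hy, add_assoc]; exact Nat.le_add_right _ _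
  have hy2 : 2 ^ r ≤ y := by
    rw [hy]; exact (Nat.le_add_left _ _).trans (Nat.le_add_right _ _)
  have hy3 : q ≤ y := by rw [hy]; exact Nat.le_add_left _ _
  refine ⟨y, Q, R, e, hQpos, Dvd.intro _ rfl, hy1, hQR, hp2, ?_, ?_, ?_, ?_⟩
  · intro p hp hpy h
    rcases (Nat.Prime.dvd_mul hp).1 h with h | h
    · have h1 := Nat.le_of_dvd hq h
      exact absurd (h1.trans hy3) (not_le.2 hpy)
    · have h1 := hp.dvd_of_dvd_pow h
      have h2 := (hp.dvd_factorial).1 h1
      omega
  · intro f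
    exact hsq (bval f) (bval_lt f)
  · intro f g hfg
    refine dd_coprime (y := y) hy2 ?_ hfg
    intro p hp hpy
    exact ((dvd_pow_self p two_ne_zero).trans (hp2 p hp hpy)).trans hQR
  · have := prod_bval (r := r) (fun l => ArithmeticFunction.moebius (1 + R * (e + l)))
    rw [hprod] at this
    exact this

theorem exists_crt {r : ℕ} (Q R e : ℕ) (hQ : 0 < Q) (hQR : Q ∣ R)
    (hcop : ∀ f g : Fin r → Fin 2, f ≠ g → Nat.Coprime (dd R e f) (dd R e g))
    (n₀ : ℕ) (C : (Fin r → Fin 2) → ℤ) (B : ℤ) :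
    ∃ m : ℤ, B ≤ m ∧ (Q : ℤ) ∣ m - n₀ ∧ ∀ f, (dd R e f : ℤ) ∣ m - C f := by
  classical
  have hdpos : ∀ f : Fin r → Fin 2, 0 < dd R e f := by intro f; simp only [dd]; omega
  have hcopQ : ∀ f : Fin r → Fin 2, Nat.Coprime Q (dd R e f) := by
    intro f
    apply Nat.Coprime.symm
    simp only [dd]
    obtain ⟨R', hR'⟩ := hQR
    rw [hR', mul_assoc]
    exact (Nat.coprime_add_mul_left_left 1 Q _).2 (Nat.coprime_one_left Q)
  let s : Option (Fin r → Fin 2) → ℕ := fun o => o.elim Q (fun f => dd R e f)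
  let a : Option (Fin r → Fin 2) → ℕ := fun o =>
    o.elim n₀ (fun f => (C f % (dd R e f : ℤ)).toNat)
  have hs : ∀ o ∈ (Finset.univ : Finset (Option (Fin r → Fin 2))), s o ≠ 0 := by
    intro o _
    cases o with
    | none => exact hQ.ne'
    | some f => exact (hdpos f).ne'
  have hpair : ((Finset.univ : Finset (Option (Fin r → Fin 2))) : Set _).Pairwise
      (Function.onFun Nat.Coprime s) := by
    intro o _ o' _ hne
    cases o with
    | none =>
      cases o' with
      | none => exact absurd rfl hne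
      | some g => exact hcopQ g
    | some f =>
      cases o' with
      | none => exact (hcopQ f).symm
      | some g => exact hcop f g (fun h => hne (by rw [h]))
  obtain ⟨k, hk⟩ := Nat.chineseRemainderOfFinset a s Finset.univ hs hpair
  set M : ℕ := Q * ∏ f : Fin r → Fin 2, dd R e f with hM
  have hMpos : 0 < M := Nat.mul_pos hQ (Finset.prod_pos (fun f _ => hdpos f))
  refine ⟨(k : ℤ) + M * B.natAbs, ?_, ?_, ?_⟩
  · have h1 : B ≤ B.natAbs := Int.le_natAbs
    have h2 : (B.natAbs : ℤ) ≤ M * B.natAbs := by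
      have : (1 : ℤ) ≤ M := by exact_mod_cast hMpos
      nlinarith [Int.natCast_nonneg B.natAbs]
    have h3 : (0 : ℤ) ≤ k := Int.natCast_nonneg k
    linarith
  · have h1 : k ≡ n₀ [MOD Q] := hk none (Finset.mem_univ _)
    have h2 : (Q : ℤ) ∣ (k : ℤ) - n₀ := (Nat.modEq_iff_dvd).1 h1.symm
    have h3 : (Q : ℤ) ∣ (M : ℤ) * B.natAbs := by
      apply Dvd.dvd.mul_right
      exact_mod_cast (Dvd.intro _ rfl : Q ∣ M)
    have h4 := dvd_add h2 h3
    have e1 : (k : ℤ) - n₀ + M * B.natAbs = k + M * B.natAbs - n₀ := by ring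
    rwa [e1] at h4
  · intro f
    have h1 : k ≡ (C f % (dd R e f : ℤ)).toNat [MOD (dd R e f)] := hk (some f) (Finset.mem_univ _)
    have h2 : ((dd R e f : ℕ) : ℤ) ∣ (k : ℤ) - ((C f % (dd R e f : ℤ)).toNat : ℤ) :=
      (Nat.modEq_iff_dvd).1 h1.symm
    have hd0 : (dd R e f : ℤ) ≠ 0 := by exact_mod_cast (hdpos f).ne'
    rw [Int.toNat_of_nonneg (Int.emod_nonneg _ hd0)] at h2
    have h3 : (dd R e f : ℤ) ∣ C f % (dd R e f : ℤ) - C f := by
      have := Int.emod_add_mul_ediv (C f) (dd R e f)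
      exact ⟨-(C f / (dd R e f : ℤ)), by linarith⟩
    have h4 : (dd R e f : ℤ) ∣ (M : ℤ) * B.natAbs := by
      apply Dvd.dvd.mul_right
      have : dd R e f ∣ M := (Finset.dvd_prod_of_mem _ (Finset.mem_univ f)).mul_left Q
      exact_mod_cast this
    have h5 := dvd_add (dvd_add h2 h3) h4
    have e1 : (k : ℤ) - C f % (dd R e f : ℤ) + (C f % (dd R e f : ℤ) - C f) + M * B.natAbs
        = k + M * B.natAbs - C f := by ring
    rwa [e1] at h5

theorem chowla_odd_main (r q : ℕ) (hq : 0 < q) :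
    ∃ c : ℝ, 0 < c ∧
      ∀ (α : Fin r → ℤ) (ε : Fin r → ℕ), (∀ i, 1 ≤ ε i) → Odd (∑ i, ε i) →
        ∀ n₀ : ℕ, ∏ i, ArithmeticFunction.moebius ((n₀ + α i).toNat) ^ ε i ≠ 0 →
          ∀ σ : ℤ, (σ = 1 ∨ σ = -1) → ∀ᶠ N : ℕ in atTop,
            c * N ≤ (((Finset.Icc 1 N).filter (fun n : ℕ => n ≡ n₀ [MOD q] ∧
              ∏ i, ArithmeticFunction.moebius ((n + α i).toNat) ^ ε i = σ)).card : ℝ) := by
  classical
  rcases Nat.eq_zero_or_pos r with hr | hr
  · subst hr
    refine ⟨1, one_pos, ?_⟩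
    intro α ε _ hodd
    simp at hodd
  obtain ⟨y, Q, R, e, hQ, hqQ, hry, hQR, hp2, hpy, hdsq, hcop, hdprod⟩ := exists_data r q hq
  have hdpos : ∀ f : Fin r → Fin 2, 0 < dd R e f := by intro f; simp only [dd]; omega
  set b : (Fin r → Fin 2) → ℕ := fun f => Q * ∏ g ∈ Finset.univ.erase f, dd R e g with hb
  have hbpos : ∀ f, 0 < b f := fun f =>
    Nat.mul_pos hQ (Finset.prod_pos (fun g _ => hdpos g))
  set M : ℕ := Q * ∏ f : Fin r → Fin 2, dd R e f with hM
  have hdb : ∀ f, dd R e f * b f = M := by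
    intro f
    simp only [hb, hM]
    rw [← Finset.mul_prod_erase Finset.univ (fun f => dd R e f) (Finset.mem_univ f)]
    ring
  have hcard : Fintype.card ((Fin r → Fin 2) × Fin r) ≤ y := by
    simp only [Fintype.card_prod, Fintype.card_pi, Fintype.card_fin, Finset.prod_const,
      Finset.card_univ]
    exact hry
  have hb2 : ∀ p : ℕ, p.Prime → y < p → ∀ z : (Fin r → Fin 2) × Fin r, ¬ p ^ 2 ∣ b z.1 := by
    intro p hp hpy' z h
    have h1 : Nat.Coprime (p ^ 2) Q :=
      Nat.Coprime.pow_left 2 ((Nat.Prime.coprime_iff_not_dvd hp).2 (hpy p hp hpy'))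
    have h2 : p ^ 2 ∣ ∏ g ∈ Finset.univ.erase z.1, dd R e g := h1.dvd_of_dvd_mul_left h
    have h3 : Squarefree (∏ g ∈ Finset.univ.erase z.1, dd R e g) := by
      apply Finset.squarefree_prod_of_pairwise_isCoprime
      · intro f _ g _ hfg
        exact Nat.coprime_iff_isRelPrime.1 (hcop f g hfg)
      · intro g _; exact hdsq g
    have h4 := h3 p (by rwa [← pow_two])
    exact hp.one_lt.ne' (Nat.isUnit_iff.1 h4)
  obtain ⟨c1, hc1, hsieve⟩ := sieve (ι := (Fin r → Fin 2) × Fin r) (fun z => b z.1)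
    (fun z => hbpos z.1) y hcard hb2
  set Bm : ℕ := ∑ f, b f with hBm
  have hbBm : ∀ f, b f ≤ Bm := fun f =>
    Finset.single_le_sum (f := b) (fun _ _ => Nat.zero_le _) (Finset.mem_univ f)
  have hBmpos : 0 < Bm := lt_of_lt_of_le (hbpos 0) (hbBm 0)
  have hKpos : (0 : ℝ) < (2 : ℝ) ^ r := by positivity
  have hBmr : (0 : ℝ) < Bm := by exact_mod_cast hBmpos
  refine ⟨c1 / (2 * 2 ^ r * Bm), by positivity, ?_⟩
  intro α ε hε hodd n₀ hn₀ σ hσ
  -- squarefreeness at n₀
  have hn₀sq : ∀ i, Squarefree ((n₀ + α i).toNat) := by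
    intro i
    rw [Finset.prod_ne_zero_iff] at hn₀
    have h1 := hn₀ i (Finset.mem_univ i)
    have h2 : ArithmeticFunction.moebius ((n₀ + α i).toNat) ≠ 0 := by
      intro h0
      rw [h0] at h1
      exact h1 (zero_pow (by have := hε i; omega))
    exact ArithmeticFunction.moebius_ne_zero_iff_squarefree.1 h2
  -- CRT
  set Bd : ℤ := ∑ f : Fin r → Fin 2, (|cc R α f| + (dd R e f : ℤ) * (1 + ∑ i, |α i|)) with hBd
  obtain ⟨m0, hm0B, hm0Q, hm0d⟩ := exists_crt Q R e hQ hQR hcop n₀ (fun f => cc R α f) Bd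
  choose a ha using hm0d
  -- a f : m0 - cc = dd * a f
  have hterm : ∀ f : Fin r → Fin 2,
      |cc R α f| + (dd R e f : ℤ) * (1 + ∑ i, |α i|) ≤ Bd := by
    intro f
    apply Finset.single_le_sum
      (f := fun f : Fin r → Fin 2 => |cc R α f| + (dd R e f : ℤ) * (1 + ∑ i, |α i|))
    · intro g _
      have : (0 : ℤ) ≤ ∑ i, |α i| := Finset.sum_nonneg (fun i _ => abs_nonneg _)
      positivity
    · exact Finset.mem_univ f
  have habig : ∀ f, 1 + ∑ i, |α i| ≤ a f := by
    intro f
    have h1 : (dd R e f : ℤ) * (1 + ∑ i, |α i|) ≤ (dd R e f : ℤ) * a f := by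
      rw [← ha f]
      have h2 := hterm f
      have h3 := le_abs_self (cc R α f)
      linarith
    have h4 : (0 : ℤ) < dd R e f := by exact_mod_cast hdpos f
    exact le_of_mul_le_mul_left h1 h4
  have hαle : ∀ i, |α i| ≤ ∑ i, |α i| := fun i =>
    Finset.single_le_sum (f := fun i => |α i|) (fun _ _ => abs_nonneg _) (Finset.mem_univ i)
  have hapos : ∀ f, 1 ≤ a f := by
    intro f
    have h1 := habig f
    have : (0 : ℤ) ≤ ∑ i, |α i| := Finset.sum_nonneg (fun i _ => abs_nonneg _)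
    linarith
  have haαpos : ∀ f i, 1 ≤ a f + α i := by
    intro f i
    have h1 := habig f
    have h2 := hαle i
    have h3 := neg_abs_le (α i)
    linarith
  set a' : (Fin r → Fin 2) × Fin r → ℕ := fun z => (a z.1 + α z.2).toNat with ha'
  have ha'cast : ∀ z : (Fin r → Fin 2) × Fin r, (a' z : ℤ) = a z.1 + α z.2 := by
    intro z
    simp only [ha']
    exact Int.toNat_of_nonneg (by have := haαpos z.1 z.2; linarith)
  have hamodQ : ∀ f, (Q : ℤ) ∣ a f - n₀ := by
    intro f
    have hRQ : (Q : ℤ) ∣ (R : ℤ) := by exact_mod_cast hQR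
    have h1 : (Q : ℤ) ∣ (dd R e f : ℤ) * a f - a f := by
      have : (dd R e f : ℤ) * a f - a f = R * ((e + bval f) * a f) := by
        simp only [dd]; push_cast; ring
      rw [this]; exact hRQ.mul_right _
    have h2 : (Q : ℤ) ∣ cc R α f := by
      simp only [cc]; exact hRQ.mul_right _
    have h3 : a f - n₀ = (m0 - n₀) - cc R α f - ((dd R e f : ℤ) * a f - a f) := by
      rw [← ha f]; ring
    rw [h3]
    exact dvd_sub (dvd_sub hm0Q h2) h1
  have ha'pos : ∀ z, 0 < a' z := by
    intro z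
    have h1 := ha'cast z
    have h2 := haαpos z.1 z.2
    have : (0 : ℤ) < a' z := by rw [h1]; linarith
    exact_mod_cast this
  have hloc : ∀ p : ℕ, p.Prime → p ≤ y → ∀ z : (Fin r → Fin 2) × Fin r,
      p ^ 2 ∣ b z.1 ∧ ¬ p ^ 2 ∣ a' z := by
    intro p hp hpy' z
    refine ⟨(hp2 p hp hpy').mul_right _, ?_⟩
    intro hdvd
    have h1 : ((p ^ 2 : ℕ) : ℤ) ∣ a z.1 + α z.2 := by
      rw [← ha'cast z]; exact_mod_cast hdvd
    have h2 : ((p ^ 2 : ℕ) : ℤ) ∣ a z.1 - n₀ :=
      (Int.natCast_dvd_natCast.2 (hp2 p hp hpy')).trans (hamodQ z.1)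
    have h3 : ((p ^ 2 : ℕ) : ℤ) ∣ (n₀ : ℤ) + α z.2 := by
      have := dvd_sub h1 h2
      have e1 : a z.1 + α z.2 - (a z.1 - n₀) = n₀ + α z.2 := by ring
      rwa [e1] at this
    have hsq := hn₀sq z.2
    have hpos : 0 < (n₀ + α z.2).toNat := Nat.pos_of_ne_zero hsq.ne_zero
    have h4 : ((n₀ + α z.2).toNat : ℤ) = n₀ + α z.2 := by
      apply Int.toNat_of_nonneg
      by_contra hneg
      push Not at hneg
      rw [Int.toNat_of_nonpos hneg.le] at hpos
      exact lt_irrefl _ hpos
    rw [← h4] at h3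
    have h5 : p ^ 2 ∣ (n₀ + α z.2).toNat := by exact_mod_cast h3
    have h6 := hsq p (by rwa [← pow_two])
    exact hp.one_lt.ne' (Nat.isUnit_iff.1 h6)
  have hev := hsieve a' ha'pos hloc
  -- F
  set F : ℕ → ℤ := fun n => ∏ i, ArithmeticFunction.moebius ((n + α i).toNat) ^ ε i with hF
  set af : (Fin r → Fin 2) → ℕ := fun f => (a f).toNat with haf
  have hafcast : ∀ f, (af f : ℤ) = a f := by
    intro f; simp only [haf]; exact Int.toNat_of_nonneg (by have := hapos f; linarith)
  have hafpos : ∀ f, 1 ≤ af f := by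
    intro f
    have h1 := hapos f
    rw [← hafcast f] at h1
    exact_mod_cast h1
  -- for each good t
  have hgood : ∀ t : ℕ, (∀ z : (Fin r → Fin 2) × Fin r, Squarefree (b z.1 * t + a' z)) →
      ∃ f, F (b f * t + af f) = σ := by
    intro t ht
    have htoNat : ∀ f i, (((b f * t + af f : ℕ) : ℤ) + α i).toNat = b f * t + a' (f, i) := by
      intro f i
      have h1 : ((b f * t + af f : ℕ) : ℤ) + α i = ((b f * t + a' (f, i) : ℕ) : ℤ) := by
        push_cast
        rw [hafcast f, ha'cast (f, i)]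
        ring
      rw [h1]; exact Int.toNat_natCast _
    have hid : ∀ i, ∏ f, ArithmeticFunction.moebius (b f * t + a' (f, i)) = -1 := by
      intro i
      apply product_identity R e α (m0 + M * t) (fun f i => b f * t + a' (f, i))
        (fun f => a f + b f * t) _ _ _ hdsq hdprod i
      · intro f
        have h1 := ha f
        have h2 : ((dd R e f * b f : ℕ) : ℤ) = M := by exact_mod_cast hdb f
        push_cast at h2
        linear_combination (t : ℤ) * h2 - h1
      · intro f i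
        push_cast
        rw [ha'cast (f, i)]
        ring
      · intro f i; exact ht (f, i)
    have hFval : ∀ f, F (b f * t + af f) =
        ∏ i, ArithmeticFunction.moebius (b f * t + a' (f, i)) ^ ε i := by
      intro f
      simp only [hF]
      apply Finset.prod_congr rfl
      intro i _
      rw [htoNat f i]
    have hFpm : ∀ f, F (b f * t + af f) = 1 ∨ F (b f * t + af f) = -1 := by
      intro f
      rw [hFval f]
      have hall : ∀ i ∈ (Finset.univ : Finset (Fin r)),
          ArithmeticFunction.moebius (b f * t + a' (f, i)) ^ ε i = 1 ∨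
          ArithmeticFunction.moebius (b f * t + a' (f, i)) ^ ε i = -1 := by
        intro i _
        have h1 := ArithmeticFunction.moebius_ne_zero_iff_eq_or.1
          (ArithmeticFunction.moebius_ne_zero_iff_squarefree.2 (ht (f, i)))
        simp only at h1
        rcases h1 with h1 | h1
        · left; rw [h1, one_pow]
        · rw [h1]; exact neg_one_pow_eq_or ℤ _
      clear_value F
      have hgen : ∀ s : Finset (Fin r), ∀ g : Fin r → ℤ, (∀ i ∈ s, g i = 1 ∨ g i = -1) →
          (∏ i ∈ s, g i = 1 ∨ ∏ i ∈ s, g i = -1) := by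
        intro s g hg
        induction s using Finset.induction_on with
        | empty => left; simp
        | insert x s hx ih =>
          rw [Finset.prod_insert hx]
          have h3 := ih (fun l hl => hg l (Finset.mem_insert_of_mem hl))
          have h4 := hg x (Finset.mem_insert_self _ _)
          rcases h3 with h3 | h3 <;> rcases h4 with h4 | h4 <;> simp [h3, h4]
      exact hgen _ _ hall
    have hFprod : ∏ f, F (b f * t + af f) = -1 := by
      rw [Finset.prod_congr rfl (fun f _ => hFval f), Finset.prod_comm]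
      have h1 : ∀ i ∈ (Finset.univ : Finset (Fin r)),
          ∏ f, ArithmeticFunction.moebius (b f * t + a' (f, i)) ^ ε i = (-1) ^ ε i := by
        intro i _
        rw [Finset.prod_pow, hid i]
      rw [Finset.prod_congr rfl h1, Finset.prod_pow_eq_pow_sum]
      exact hodd.neg_one_pow
    have heven : Even (Fintype.card (Fin r → Fin 2)) := by
      simp only [Fintype.card_pi, Fintype.card_fin, Finset.prod_const, Finset.card_univ]
      exact (even_two).pow_of_ne_zero (by omega)
    obtain ⟨h1, h2⟩ := exists_signs (fun f => F (b f * t + af f)) hFpm heven hFprod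
    rcases hσ with h | h
    · rw [h]; exact h1
    · rw [h]; exact h2
  have hcong : ∀ f t, b f * t + af f ≡ n₀ [MOD q] := by
    intro f t
    have h1 : (Q : ℤ) ∣ ((b f * t + af f : ℕ) : ℤ) - n₀ := by
      push_cast
      rw [hafcast f]
      have h2 : (Q : ℤ) ∣ (b f : ℤ) * t := by
        apply Dvd.dvd.mul_right
        exact_mod_cast (Dvd.intro _ rfl : Q ∣ b f)
      have h3 := dvd_add h2 (hamodQ f)
      have e1 : (b f : ℤ) * t + (a f - n₀) = b f * t + a f - n₀ := by ring
      rwa [e1] at h3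
    have h2 : (q : ℤ) ∣ ((b f * t + af f : ℕ) : ℤ) - n₀ :=
      (by exact_mod_cast hqQ : (q : ℤ) ∣ (Q : ℤ)).trans h1
    exact ((Nat.modEq_iff_dvd).2 h2).symm
  -- counting
  set Am : ℕ := ∑ f, af f with hAm
  have hafAm : ∀ f, af f ≤ Am := fun f =>
    Finset.single_le_sum (f := af) (fun _ _ => Nat.zero_le _) (Finset.mem_univ f)
  have hcount : ∀ T N : ℕ, Bm * T + Am ≤ N →
      ((Finset.range T).filter
        (fun t => ∀ z : (Fin r → Fin 2) × Fin r, Squarefree (b z.1 * t + a' z))).card ≤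
      2 ^ r * ((Finset.Icc 1 N).filter (fun n : ℕ => n ≡ n₀ [MOD q] ∧ F n = σ)).card := by
    intro T N hTN
    have hsub : (Finset.range T).filter
        (fun t => ∀ z : (Fin r → Fin 2) × Fin r, Squarefree (b z.1 * t + a' z)) ⊆
        Finset.univ.biUnion (fun f : Fin r → Fin 2 =>
          (Finset.range T).filter (fun t => F (b f * t + af f) = σ)) := by
      intro t ht
      rw [Finset.mem_filter] at ht
      obtain ⟨f, hf⟩ := hgood t ht.2
      simp only [mem_biUnion, mem_univ, true_and, mem_filter]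
      exact ⟨f, ht.1, hf⟩
    have hf : ∀ f : Fin r → Fin 2,
        ((Finset.range T).filter (fun t => F (b f * t + af f) = σ)).card ≤
        ((Finset.Icc 1 N).filter (fun n : ℕ => n ≡ n₀ [MOD q] ∧ F n = σ)).card := by
      intro f
      apply Finset.card_le_card_of_injOn (fun t => b f * t + af f)
      · intro t ht
        simp only [coe_filter, mem_range, Set.mem_ofPred_eq, mem_Icc] at ht ⊢
        refine ⟨⟨?_, ?_⟩, hcong f t, ht.2⟩
        · have := hafpos f; omega
        · have h1 : b f * t ≤ Bm * T := Nat.mul_le_mul (hbBm f) ht.1.le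
          have h2 := hafAm f
          omega
      · intro t _ u _ h
        simp only at h
        have : b f * t = b f * u := by omega
        exact Nat.eq_of_mul_eq_mul_left (hbpos f) this
    refine (Finset.card_le_card hsub).trans (Finset.card_biUnion_le.trans ?_)
    refine (Finset.sum_le_sum (fun f _ => hf f)).trans ?_
    rw [Finset.sum_const, smul_eq_mul]
    simp only [Finset.card_univ, Fintype.card_pi, Fintype.card_fin, Finset.prod_const]
    exact le_rfl
  rw [Filter.eventually_atTop] at hev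
  obtain ⟨T0, hT0⟩ := hev
  rw [Filter.eventually_atTop]
  refine ⟨Bm * T0 + 2 * Am + 2 * Bm, ?_⟩
  intro N hN
  set T : ℕ := (N - Am) / Bm with hT
  have hBT : Bm * T ≤ N - Am := Nat.mul_div_le _ _
  have hBT2 : N - Am < Bm * T + Bm := by
    have := Nat.lt_mul_div_succ (N - Am) hBmpos
    rw [hT]; linarith [this]
  have hTT0 : T0 ≤ T := by
    rw [hT, Nat.le_div_iff_mul_le hBmpos]
    have : T0 * Bm = Bm * T0 := mul_comm _ _
    omega
  have h1 := hT0 T hTT0
  have h2 := hcount T N (by omega)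
  have h2' : ((((Finset.range T).filter
        (fun t => ∀ z : (Fin r → Fin 2) × Fin r, Squarefree (b z.1 * t + a' z))).card : ℕ) : ℝ) ≤
      2 ^ r * (((Finset.Icc 1 N).filter (fun n : ℕ => n ≡ n₀ [MOD q] ∧ F n = σ)).card : ℝ) := by
    exact_mod_cast h2
  have h3 : (N : ℝ) ≤ 2 * (Bm * T) := by
    have : N ≤ 2 * (Bm * T) := by omega
    exact_mod_cast this
  have h4 : c1 * N ≤ 2 * Bm * (c1 * T) := by nlinarith
  have h5 : c1 * T ≤
      2 ^ r * (((Finset.Icc 1 N).filter (fun n : ℕ => n ≡ n₀ [MOD q] ∧ F n = σ)).card : ℝ) :=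
    h1.trans h2'
  rw [div_mul_eq_mul_div, div_le_iff₀ (by positivity)]
  calc c1 * N ≤ 2 * Bm * (c1 * T) := h4
    _ ≤ 2 * Bm * (2 ^ r *
        (((Finset.Icc 1 N).filter (fun n : ℕ => n ≡ n₀ [MOD q] ∧ F n = σ)).card : ℝ)) := by
        apply mul_le_mul_of_nonneg_left h5 (by positivity)
    _ = _ := by ring

end Pool.Agent.H28
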